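import Pool.Agent.Lib_helper63.DH.Int
import Pool.Agent.Lib_helper63.DH.Glue
import Pool.Agent.Lib_helper63.DH.Example

/-!
MP_132c94_pr, Q2 (Derrida–Hilhorst, integer exponent).
-/

open MeasureTheory Filter Topology ProbabilityTheory Asymptotics

namespace Pool.Agent.Results.MP_132c94_pr.Integer

/-- The matrix `M_ε` at `Z = z`. -/
noncomputable def matM (ε z : ℝ) : Matrix (Fin 2) (Fin 2) ℝ := !![1, ε; ε * z, z]

/-- The product `M_{n,ε} ⋯ M_{1,ε}` along the sample `z 0, z 1, …`. -/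
noncomputable def prodMat (ε : ℝ) (z : ℕ → ℝ) : ℕ → Matrix (Fin 2) (Fin 2) ℝ
  | 0 => 1
  | n + 1 => matM ε (z n) * prodMat ε z n

/-- The sum of the absolute values of the entries. -/
def matNorm (A : Matrix (Fin 2) (Fin 2) ℝ) : ℝ := ∑ i, ∑ j, |A i j|

/-- `L` is the top Lyapunov exponent at `ε`: almost surely
`n⁻¹ log ‖M_{n,ε} ⋯ M_{1,ε}‖ → L`. -/
def IsLyap {Ω : Type*} [MeasurableSpace Ω] (P : Measure Ω) (Z : ℕ → Ω → ℝ) (ε L : ℝ) : Prop :=
  ∀ᵐ ω ∂P, Tendsto (fun n : ℕ =>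
    (n:ℝ)⁻¹ * Real.log (matNorm (prodMat ε (fun k => Z k ω) n))) atTop (𝓝 L)

/-- The setting: `Z 0, Z 1, …` are i.i.d. copies of a positive, not almost surely constant
random variable with `E[Z^α] = 1`. -/
structure Setting {Ω : Type*} [MeasurableSpace Ω] (P : Measure Ω) (Z : ℕ → Ω → ℝ) (α : ℝ) :
    Prop where
  prob : IsProbabilityMeasure P
  meas : ∀ n, Measurable (Z n)
  indep : iIndepFun Z P
  ident : ∀ n, IdentDistrib (Z n) (Z 0) P P
  pos : ∀ᵐ ω ∂P, 0 < Z 0 ω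
  nonconst : ∀ c, ¬ ∀ᵐ ω ∂P, Z 0 ω = c
  one : ∫ ω, Z 0 ω ^ α ∂P = 1

/-- `log Z` is not arithmetic. -/
def NonArith {Ω : Type*} [MeasurableSpace Ω] (P : Measure Ω) (Z : ℕ → Ω → ℝ) : Prop :=
  ¬ ∃ c : ℝ, 0 < c ∧ ∀ᵐ ω ∂P, ∃ k : ℤ, c * Real.log (Z 0 ω) = k

/-- The expansion
`L(ε) = ∑_{k=1}^m (-1)^{k+1} ℓ_k ε^{2k} + (-1)^m C ε^{2α} log(1/ε) + o(ε^{2α} log(1/ε))`
as `ε ↓ 0`. -/
def ExpLog (L : ℝ → ℝ) (l : ℕ → ℝ) (m : ℕ) (α C : ℝ) : Prop :=
  (fun ε => L ε - (∑ k ∈ Finset.Icc 1 m, (-1 : ℝ) ^ (k + 1) * l k * ε ^ (2 * k) +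
    (-1 : ℝ) ^ m * C * ε ^ (2 * α) * Real.log (1 / ε))) =o[𝓝[>] 0]
  fun ε => ε ^ (2 * α) * Real.log (1 / ε)

open Pool.Agent.Lib_helper63.DH

theorem prodMat_eq (ε : ℝ) (z : ℕ → ℝ) (n : ℕ) : prodMat ε z n = prodM ε z n := by
  induction n with
  | zero => rfl
  | succ n ih => simp only [prodMat, prodM, ih]; rfl

/-- **Q2.** For integer `α = m + 1 ≥ 1`: the expansion holds with some `C > 0` exactly when
`E[Z^α |log Z|] < ∞`, and with `C = 0` otherwise; the second case does occur, even for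
non-arithmetic `log Z`. -/
theorem result :
    (∀ (m : ℕ) {Ω : Type*} [MeasurableSpace Ω] (P : Measure Ω) (Z : ℕ → Ω → ℝ),
      Setting P Z ((m:ℝ) + 1) →
      ∃ (L : ℝ → ℝ) (l : ℕ → ℝ), (∀ ε, 0 < ε → ε < 1 → IsLyap P Z ε (L ε)) ∧
        (∀ k, 1 ≤ k → k ≤ m → 0 < l k) ∧
        ((∃ C, 0 < C ∧ ExpLog L l m ((m:ℝ) + 1) C) ↔
          Integrable (fun ω => Z 0 ω ^ ((m:ℝ) + 1) * Real.log (Z 0 ω)) P) ∧
        (¬ Integrable (fun ω => Z 0 ω ^ ((m:ℝ) + 1) * Real.log (Z 0 ω)) P →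
          ExpLog L l m ((m:ℝ) + 1) 0)) ∧
    (∀ m : ℕ, ∃ (Ω : Type) (_ : MeasurableSpace Ω) (P : Measure Ω) (Z : ℕ → Ω → ℝ),
      Setting P Z ((m:ℝ) + 1) ∧ NonArith P Z ∧
        ¬ Integrable (fun ω => Z 0 ω ^ ((m:ℝ) + 1) * Real.log (Z 0 ω)) P) := by
  constructor
  · intro m Ω _ P Z hS
    obtain ⟨hprob, hmeas, hind, hid, hpos, hne, hone⟩ := hS
    set α : ℝ := (m:ℝ) + 1 with hα
    have hm0 : (0:ℝ) ≤ m := Nat.cast_nonneg m
    have hα0 : 0 < α := by rw [hα]; positivity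
    have hlaw := law_of hmeas hpos hα0 hone hne
    have hpr : IsProbabilityMeasure (P.map (Z 0)) :=
      Measure.isProbabilityMeasure_map (hmeas 0).aemeasurable
    set μ := P.map (Z 0) with hμ
    obtain ⟨l, T, hl, hT, hexp⟩ := expansion (fun k => ∫ z, z ^ k ∂μ) m
      (fun k h1 h2 => mom_bounds hlaw (by linarith) k h1 h2)
    obtain ⟨C, hC0, hC, hlim⟩ := hlaw.rem_int hα hT
    have hCi : 0 < C ↔ Integrable (fun ω => Z 0 ω ^ α * Real.log (Z 0 ω)) P := by
      rw [hC, hlaw.nu_integrable_iff (f := fun x => x) measurable_id]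
      exact integrable_transfer hmeas
    -- the expansion with a general constant
    have hsq : Tendsto (fun ε : ℝ => ε ^ 2) (𝓝[>] 0) (𝓝[>] 0) := by
      rw [tendsto_nhdsWithin_iff]
      constructor
      · have : Tendsto (fun ε : ℝ => ε ^ 2) (𝓝 0) (𝓝 (0 ^ 2)) := (continuous_pow 2).tendsto 0
        rw [zero_pow two_ne_zero] at this
        exact this.mono_left nhdsWithin_le_nhds
      · filter_upwards [self_mem_nhdsWithin] with ε hε
        have : (0:ℝ) < ε := hε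
        exact (by positivity : (0:ℝ) < ε ^ 2)
    have hlim2 := hlim.comp hsq
    -- the normalised remainder
    have hR : Tendsto (fun ε : ℝ => (-1 : ℝ) ^ m * (lam μ ε -
        ∑ k ∈ Finset.Icc 1 m, (-1 : ℝ) ^ (k + 1) * l k * ε ^ (2 * k)) /
        (ε ^ (2 * α) * Real.log (1 / ε))) (𝓝[>] 0) (𝓝 (2 * C)) := by
      have h2 := hlim2.const_mul 2
      refine h2.congr' ?_
      filter_upwards [small_e, logL_tendsto.eventually_ge_atTop 1] with ε he hL
      obtain ⟨hε, hε1⟩ := he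
      have he : 0 < ε ^ 2 := by positivity
      have he1 : ε ^ 2 < 1 := by nlinarith
      have h3 := hexp (Pm μ) (Ye (ε ^ 2)) (ε ^ 2) (hlaw.stat he he1 (by linarith))
      simp only [Function.comp]
      rw [← h3]
      have h4 : (ε ^ 2) ^ α = ε ^ (2 * α) := by
        rw [← Real.rpow_natCast, ← Real.rpow_mul hε.le]; norm_num
      have h5 : Real.log (1 / ε ^ 2) = 2 * Real.log (1 / ε) := by
        rw [one_div, one_div, Real.log_inv, Real.log_inv, Real.log_pow]; push_cast; ring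
      have h6 : ∀ k, (ε ^ 2) ^ k = ε ^ (2 * k) := fun k => by rw [pow_mul]
      have h7 : 0 < ε ^ (2 * α) := Real.rpow_pos_of_pos hε _
      have h8 : Real.log (1 / ε) ≠ 0 := by linarith
      simp only [h6]
      rw [h4, h5]
      have h9 : lam μ ε = ∫ ω, Real.log (1 + Ye (ε ^ 2) ω) ∂(Pm μ) := rfl
      rw [h9]
      field_simp
    have hD : ∀ C' : ℝ, ExpLog (lam μ) l m α C' ↔ C' = 2 * C := by
      intro C'
      unfold ExpLog
      have hpos : ∀ᶠ ε in 𝓝[>] (0:ℝ), 0 < ε ^ (2 * α) * Real.log (1 / ε) := by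
        filter_upwards [small_e, logL_tendsto.eventually_ge_atTop 1] with ε he hL
        obtain ⟨hε, hε1⟩ := he
        have h7 : 0 < ε ^ (2 * α) := Real.rpow_pos_of_pos hε _
        have h8 : 0 < Real.log (1 / ε) := by linarith
        positivity
      rw [isLittleO_iff_tendsto' (by
        filter_upwards [hpos] with ε h1 h2
        exact absurd h2 h1.ne')]
      have hmm : (-1 : ℝ) ^ m * (-1 : ℝ) ^ m = 1 := by
        rw [← mul_pow]; norm_num
      have hcong : (fun ε : ℝ => (lam μ ε - (∑ k ∈ Finset.Icc 1 m, (-1 : ℝ) ^ (k + 1) * l k *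
          ε ^ (2 * k) + (-1 : ℝ) ^ m * C' * ε ^ (2 * α) * Real.log (1 / ε))) /
          (ε ^ (2 * α) * Real.log (1 / ε))) =ᶠ[𝓝[>] 0]
          fun ε => (-1 : ℝ) ^ m * ((-1 : ℝ) ^ m * (lam μ ε -
            ∑ k ∈ Finset.Icc 1 m, (-1 : ℝ) ^ (k + 1) * l k * ε ^ (2 * k)) /
            (ε ^ (2 * α) * Real.log (1 / ε)) - C') := by
        filter_upwards [hpos] with ε hpos
        set D := ε ^ (2 * α) * Real.log (1 / ε) with hDd
        set S := ∑ k ∈ Finset.Icc 1 m, (-1 : ℝ) ^ (k + 1) * l k * ε ^ (2 * k)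
        have e1 : (-1 : ℝ) ^ m * C' * ε ^ (2 * α) * Real.log (1 / ε) = (-1 : ℝ) ^ m * C' * D := by
          rw [hDd]; ring
        rw [e1]
        have e2 : (lam μ ε - (S + (-1 : ℝ) ^ m * C' * D)) =
            ((-1 : ℝ) ^ m * (-1 : ℝ) ^ m) * (lam μ ε - S) - (-1 : ℝ) ^ m * C' * D := by
          rw [hmm]; ring
        rw [e2]
        field_simp
      rw [tendsto_congr' hcong]
      have h1 : Tendsto (fun ε : ℝ => (-1 : ℝ) ^ m * ((-1 : ℝ) ^ m * (lam μ ε -
            ∑ k ∈ Finset.Icc 1 m, (-1 : ℝ) ^ (k + 1) * l k * ε ^ (2 * k)) /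
            (ε ^ (2 * α) * Real.log (1 / ε)) - C')) (𝓝[>] 0)
          (𝓝 ((-1 : ℝ) ^ m * (2 * C - C'))) := (hR.sub_const C').const_mul _
      constructor
      · intro h2
        have h3 := tendsto_nhds_unique h1 h2
        have h4 : (-1 : ℝ) ^ m ≠ 0 := pow_ne_zero _ (by norm_num)
        rcases mul_eq_zero.1 h3 with h5 | h5
        · exact absurd h5 h4
        · linarith
      · intro h2
        rw [h2, sub_self, mul_zero] at h1
        exact h2 ▸ h1
    refine ⟨lam μ, l, ?_, hl, ?_, ?_⟩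
    · intro ε hε hε1
      filter_upwards [lyap_transfer hmeas hind hid hlaw hε hε1] with ω hω
      refine hω.congr fun n => ?_
      rw [prodMat_eq, div_eq_inv_mul]
      rfl
    · rw [← hCi]
      constructor
      · rintro ⟨C', hC'0, hC'⟩
        rw [hD] at hC'
        linarith
      · intro h1
        exact ⟨2 * C, by positivity, (hD _).2 rfl⟩
    · intro h1
      rw [← hCi] at h1
      rw [hD]
      have : C = 0 := le_antisymm (not_lt.1 h1) hC0
      rw [this, mul_zero]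
  · intro m
    have hα : (0:ℝ) < (m:ℝ) + 1 := by positivity
    have hpr := muEx_prob hα
    obtain ⟨h1, h2, h3, h4⟩ := coord_iid (muEx ((m:ℝ) + 1))
    have hae : ∀ {p : ℝ → Prop}, MeasurableSet {z | p z} →
        ((∀ᵐ ω ∂(Pm (muEx ((m:ℝ) + 1))), p (ω 0)) ↔ ∀ᵐ z ∂(muEx ((m:ℝ) + 1)), p z) := by
      intro p hp
      have := ae_map_iff (μ := Pm (muEx ((m:ℝ) + 1))) (h1 0).aemeasurable hp
      rw [h3 0] at this
      exact this.symm
    refine ⟨ℕ → ℝ, inferInstance, Pm (muEx ((m:ℝ) + 1)), fun n ω => ω n, ?_, ?_, ?_⟩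
    · refine ⟨inferInstance, h1, h2, h4, (hae measurableSet_Ioi).2 (muEx_pos _), ?_, ?_⟩
      · intro c hc
        exact muEx_not_const hα c ((hae (measurableSet_singleton c)).1 hc)
      · have := integral_map (μ := Pm (muEx ((m:ℝ) + 1))) (h1 0).aemeasurable
          (by fun_prop : Measurable fun z : ℝ => z ^ ((m:ℝ) + 1)).aestronglyMeasurable
        rw [h3 0, muEx_one hα] at this
        exact this.symm
    · rintro ⟨c, hc, hk⟩
      apply muEx_not_arith hα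
      refine ⟨c, hc, ?_⟩
      refine (hae (p := fun z => ∃ k : ℤ, c * Real.log z = k) ?_).1 hk
      have : {z : ℝ | ∃ k : ℤ, c * Real.log z = k} = ⋃ k : ℤ, {z | c * Real.log z = k} := by
        ext z; simp
      rw [this]
      exact MeasurableSet.iUnion fun k =>
        (by fun_prop : Measurable fun z : ℝ => c * Real.log z) (measurableSet_singleton _)
    · intro hi
      apply muEx_log (α := (m:ℝ) + 1)
      have := integrable_transfer (P := Pm (muEx ((m:ℝ) + 1))) (Z := fun n ω => ω n)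
        (α := (m:ℝ) + 1) h1
      rw [h3 0] at this
      exact this.2 hi

end Pool.Agent.Results.MP_132c94_pr.Integer
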